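import Mathlib
import Pool.Agent.Helper78.SM.RandMain
import Pool.Agent.Helper18.SD.Slice

/-! Arbitrary kicks: two values of one kick for which the same direction is contracted in a typical
window are close modulo one, or in exceptional position. -/

set_option autoImplicit false
open Real MeasureTheory Set

namespace Pool.Agent.Helper78.SN

open Pool.Agent.Helper78.SM
open Pool.Agent.Helper18.SD (slice_two bad_start)

lemma phi_add_int (a x : ℝ) (m : ℤ) : phi a (x + m) = phi a x := by
  unfold phi
  rw [mul_add, show 2 * π * (m : ℝ) = m * (2 * π) by ring, Real.cos_add_int_mul_two_pi]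

lemma dphi_add_int (a x : ℝ) (m : ℤ) : dphi a (x + m) = dphi a x := by
  unfold dphi
  rw [mul_add, show 2 * π * (m : ℝ) = m * (2 * π) by ring, Real.sin_add_int_mul_two_pi]

lemma psi_add_int (a x : ℝ) (m : ℤ) : psi a (x + m) = psi a x + 2 * m := by
  unfold psi
  rw [mul_add (2 * π), show 2 * π * (m : ℝ) = m * (2 * π) by ring, Real.sin_add_int_mul_two_pi]
  ring

lemma abs_sin_add_int (x : ℝ) (m : ℤ) : |Real.sin (π * (x + m))| = |Real.sin (π * x)| := by
  rw [mul_add, mul_comm π (m : ℝ), Real.sin_add_int_mul_pi, abs_mul, abs_zpow, abs_neg, abs_one,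
    one_zpow, one_mul]

lemma exists_int_close (x : ℝ) : ∃ m : ℤ, |x - m| ≤ 1 / 2 :=
  ⟨round x, abs_sub_round x⟩

section
variable {a b : ℝ} {N : ℕ} (ω : ℕ → ℝ) (j : ℕ) (p : ℝ × ℝ)

/-- the base point of the kick -/
noncomputable def base (a : ℝ) (ω : ℕ → ℝ) (j : ℕ) (p : ℝ × ℝ) : ℝ := (X a ω j p).1

lemma base_update (a : ℝ) (t : ℝ) : base a (Function.update ω j t) j p = base a ω j p := by
  unfold base
  rw [X_congr (ω' := ω)]
  intro i hi
  rw [Function.update_of_ne (by omega)]

lemma vv_update (a : ℝ) (t : ℝ) (m : ℕ) (hm : m ≤ j + 1) :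
    vv a (Function.update ω j t) p m = vv a ω p m := by
  apply vv_congr (k := j) _ p m hm
  intro i hi
  rw [Function.update_of_ne (by omega)]

lemma vv_ne (a : ℝ) : ¬ (vv a ω p j = 0 ∧ vv a ω p (j+1) = 0) := by
  rintro ⟨h0, h1⟩
  have := VV_pos a ω p j
  unfold VV at this
  rw [h0, h1, abs_zero, max_self] at this
  exact lt_irrefl _ this

theorem two_kicks (hb : 1000 ≤ b) (hab : |a| = b ^ 10) (hN : 12 ≤ N) {t t' : ℝ}
    (ht : Typ b N (fun i => phi a (zc a (Function.update ω j t) (j+i) p))
      (dphi a (zc a (Function.update ω j t) j p)))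
    (ht' : Typ b N (fun i => phi a (zc a (Function.update ω j t') (j+i) p))
      (dphi a (zc a (Function.update ω j t') j p)))
    (hbad : |vv a (Function.update ω j t) p (j+N+1)| < |vv a (Function.update ω j t) p (j+N)|)
    (hbad' : |vv a (Function.update ω j t') p (j+N+1)| < |vv a (Function.update ω j t') p (j+N)|) :
    |Real.sin (π * (t - t'))| ≤ 4 * (b ^ 42 / b ^ (6 * N)) ∨
      |Real.sin (π * (2 * base a ω j p + t + t'))| ≤ 1 / b ^ 17 := by
  have hb0 : 0 < b := by linarith
  obtain ⟨m, hm⟩ := exists_int_close (t - t')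
  set ω1 := Function.update ω j t with hω1
  set ω2 := Function.update ω j t' with hω2
  have hX1 : X a ω1 j p = X a ω j p := by
    apply X_congr
    intro i hi
    rw [hω1, Function.update_of_ne (by omega)]
  have hX2 : X a ω2 j p = X a ω j p := by
    apply X_congr
    intro i hi
    rw [hω2, Function.update_of_ne (by omega)]
  set z : ℕ → ℝ := fun i => (X a ω1 (j+i) p).2 with hz
  set z' : ℕ → ℝ := fun i => (X a ω2 (j+i) p).2 + ((m * i : ℤ) : ℝ) with hz'
  have hzz : ∀ i, z (i+1) = zc a ω1 (j+i) p := fun i => by
    rw [hz]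
    simp only
    rw [← add_assoc, X_succ_snd]
  have hzz' : ∀ i, z' (i+1) = zc a ω2 (j+i) p + ((m * ((i+1 : ℕ) : ℤ) : ℤ) : ℝ) := fun i => by
    rw [hz']
    simp only
    rw [← add_assoc, X_succ_snd]
  have hd : z 1 - z' 1 = t - t' - m := by
    have e1 := hzz 0
    have e2 := hzz' 0
    rw [zero_add] at e1 e2
    rw [e1, e2, add_zero, zc, zc, hX1, hX2, hω1, hω2, Function.update_self, Function.update_self]
    push_cast
    ring
  have hs : z 1 + z' 1 = 2 * base a ω j p + t + t' + m := by
    have e1 := hzz 0
    have e2 := hzz' 0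
    rw [zero_add] at e1 e2
    rw [e1, e2, add_zero, zc, zc, hX1, hX2, hω1, hω2, Function.update_self, Function.update_self]
    unfold base
    push_cast
    ring
  have hφ' : ∀ i, phi a (z' (i+1)) = phi a (zc a ω2 (j+i) p) := fun i => by
    rw [hzz', phi_add_int]
  have key := slice_two hb hab hN (z := z) (z' := z') (v := fun i => vv a ω1 p (j+i))
    (v' := fun i => vv a ω2 p (j+i)) (η := fun i => ω (j+i+1)) (η' := fun i => ω (j+i+1))
    (by
      rw [hz, hz']
      simp only [add_zero, hX1, hX2]
      push_cast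
      ring)
    (by
      intro i
      rw [show i + 2 = (i + 1) + 1 by ring, hzz, hzz, show j + (i+1) = j + i + 1 by ring, zc_succ]
      congr 1
      rw [hω1, Function.update_of_ne (by omega)])
    (by
      intro i
      rw [show i + 2 = (i + 1) + 1 by ring, hzz', hzz', psi_add_int,
        show j + (i+1) = j + i + 1 by ring, zc_succ, hω2, Function.update_of_ne (by omega), ← hω2]
      rw [hz']
      simp only
      push_cast
      ring)
    (by
      intro i _
      rw [sub_self, abs_zero]
      positivity)
    (by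
      intro i
      rw [hzz]
      exact vv_rec a ω1 p (j+i))
    (by
      intro i
      rw [hφ']
      exact vv_rec a ω2 p (j+i))
    (by
      show vv a ω1 p (j+0) = vv a ω2 p (j+0)
      rw [hω1, hω2, vv_update ω j p a t (j+0) (by omega), vv_update ω j p a t' (j+0) (by omega)])
    (by
      show vv a ω1 p (j+1) = vv a ω2 p (j+1)
      rw [hω1, hω2, vv_update ω j p a t (j+1) (by omega), vv_update ω j p a t' (j+1) (by omega)])
    (by
      simp only [add_zero]
      exact vv_ne ω1 j p a)
    (by
      have e : (fun i => phi a (z (i+1))) = fun i => phi a (zc a ω1 (j+i) p) := by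
        funext i; rw [hzz]
      have e1 := hzz 0
      rw [zero_add, add_zero] at e1
      rw [e, e1]
      exact ht)
    (by
      have e : (fun i => phi a (z' (i+1))) = fun i => phi a (zc a ω2 (j+i) p) := by
        funext i; rw [hφ']
      have e1 := hzz' 0
      rw [zero_add, add_zero] at e1
      rw [e, e1, dphi_add_int]
      exact ht')
    hbad.le hbad'.le (by rw [hd]; exact hm)
  rcases key with h | h
  · left
    rw [hd] at h
    have h1 : |t - t' - m| ≤ b ^ 42 / b ^ (6 * N) := by
      rw [le_div_iff₀ (by positivity)]; exact h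
    have h2 : |Real.sin (π * (t - t'))| = |Real.sin (π * (t - t' - m))| := by
      have := abs_sin_add_int (t - t' - m) m
      rw [sub_add_cancel] at this
      exact this
    rw [h2]
    have h3 : |Real.sin (π * (t - t' - m))| ≤ |π * (t - t' - m)| := Real.abs_sin_le_abs
    refine h3.trans ?_
    rw [abs_mul, abs_of_pos Real.pi_pos]
    have h4 : 0 ≤ |t - t' - m| := abs_nonneg _
    have := Real.pi_lt_four
    nlinarith
  · right
    rw [hs, abs_sin_add_int] at h
    exact h

theorem kick_bad_start (hb : 1000 ≤ b) (hab : |a| = b ^ 10) (hN : 12 ≤ N) {t : ℝ}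
    (ht : Typ b N (fun i => phi a (zc a (Function.update ω j t) (j+i) p))
      (dphi a (zc a (Function.update ω j t) j p)))
    (hbad : |vv a (Function.update ω j t) p (j+N+1)| < |vv a (Function.update ω j t) p (j+N)|) :
    |vv a ω p (j+1)| < |vv a ω p j| := by
  set ω1 := Function.update ω j t with hω1
  set z : ℕ → ℝ := fun i => (X a ω1 (j+i) p).2 with hz
  have hzz : ∀ i, z (i+1) = zc a ω1 (j+i) p := fun i => by
    rw [hz]
    simp only
    rw [← add_assoc, X_succ_snd]
  have key := bad_start hb hab hN (z := z) (v := fun i => vv a ω1 p (j+i))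
    (by
      intro i
      rw [hzz]
      exact vv_rec a ω1 p (j+i))
    (by
      simp only [add_zero]
      exact vv_ne ω1 j p a)
    (by
      have e : (fun i => phi a (z (i+1))) = fun i => phi a (zc a ω1 (j+i) p) := by
        funext i; rw [hzz]
      have e1 := hzz 0
      rw [zero_add, add_zero] at e1
      rw [e, e1]
      exact ht)
    hbad.le
  simp only [add_zero] at key
  rw [hω1, vv_update ω j p a t (j+1) (by omega), vv_update ω j p a t j (by omega)] at key
  exact key

end

end Pool.Agent.Helper78.SN
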