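import Mathlib
import Pool.Agent.Helper78.SN.SliceN

/-! A set of kicks, any two of which are close modulo one or in exceptional position, has probability
at most `1 - p/2`, up to the probability of exceptional pairs. -/

set_option autoImplicit false
open Real MeasureTheory Set
open scoped ENNReal

namespace Pool.Agent.Helper78.SN

/-- exceptional pairs of kicks -/
def Exc (s κ : ℝ) : Set (ℝ × ℝ) := {x | |Real.sin (π * (s + x.1 + x.2))| ≤ κ}

lemma measurableSet_Exc (s κ : ℝ) : MeasurableSet (Exc s κ) := by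
  apply measurableSet_le _ measurable_const
  apply Continuous.measurable
  fun_prop

lemma pair_bound (ν : Measure ℝ) [IsProbabilityMeasure ν] {p r s κ : ℝ} (hp0 : 0 < p) (hp1 : p ≤ 1)
    (hν : ∀ x, ν {t | |Real.sin (π * (t - x))| ≤ r} ≤ ENNReal.ofReal (1 - p))
    {W : Set ℝ} (hW : MeasurableSet W)
    (h : ∀ t ∈ W, ∀ t' ∈ W, |Real.sin (π * (t - t'))| ≤ r ∨ |Real.sin (π * (s + t + t'))| ≤ κ) :
    ν W ≤ ENNReal.ofReal (1 - p / 2) + ENNReal.ofReal (4 / p) * (ν.prod ν) (Exc s κ) := by
  have h1 : (ν.prod ν) (W ×ˢ W) ≤ ν W * ENNReal.ofReal (1 - p) + (ν.prod ν) (Exc s κ) := by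
    have hsub : W ×ˢ W ⊆ ({x : ℝ × ℝ | x.1 ∈ W ∧ |Real.sin (π * (x.2 - x.1))| ≤ r}) ∪ Exc s κ := by
      rintro ⟨t, t'⟩ ⟨ht, ht'⟩
      simp only at ht ht'
      rcases h t' ht' t ht with h1 | h1
      · left
        exact ⟨ht, h1⟩
      · right
        show |Real.sin (π * (s + t + t'))| ≤ κ
        rw [show s + t + t' = s + t' + t by ring]
        exact h1
    have hm : MeasurableSet {x : ℝ × ℝ | x.1 ∈ W ∧ |Real.sin (π * (x.2 - x.1))| ≤ r} := by
      have m1 : MeasurableSet {x : ℝ × ℝ | x.1 ∈ W} := measurable_fst hW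
      have m2 : MeasurableSet {x : ℝ × ℝ | |Real.sin (π * (x.2 - x.1))| ≤ r} := by
        apply measurableSet_le _ measurable_const
        apply Continuous.measurable
        fun_prop
      exact m1.inter m2
    have h2 : (ν.prod ν) {x : ℝ × ℝ | x.1 ∈ W ∧ |Real.sin (π * (x.2 - x.1))| ≤ r} ≤
        ν W * ENNReal.ofReal (1 - p) := by
      rw [Measure.prod_apply hm]
      calc ∫⁻ t, ν (Prod.mk t ⁻¹' {x : ℝ × ℝ | x.1 ∈ W ∧ |Real.sin (π * (x.2 - x.1))| ≤ r}) ∂ν
          ≤ ∫⁻ t, W.indicator (fun _ => ENNReal.ofReal (1 - p)) t ∂ν := by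
            apply lintegral_mono
            intro t
            by_cases ht : t ∈ W
            · rw [indicator_of_mem ht]
              refine le_trans (measure_mono ?_) (hν t)
              rintro t' ⟨_, h3⟩
              exact h3
            · rw [indicator_of_notMem ht]
              have : Prod.mk t ⁻¹' {x : ℝ × ℝ | x.1 ∈ W ∧ |Real.sin (π * (x.2 - x.1))| ≤ r} = ∅ := by
                apply eq_empty_of_forall_notMem
                rintro t' ⟨h3, _⟩
                exact ht h3
              show ν (Prod.mk t ⁻¹' {x : ℝ × ℝ | x.1 ∈ W ∧ |Real.sin (π * (x.2 - x.1))| ≤ r}) ≤ 0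
              rw [this, measure_empty]
        _ = ν W * ENNReal.ofReal (1 - p) := by
            rw [lintegral_indicator_const hW, mul_comm]
    calc (ν.prod ν) (W ×ˢ W) ≤ _ := measure_mono hsub
      _ ≤ _ := measure_union_le _ _
      _ ≤ _ := by gcongr
  rw [Measure.prod_prod] at h1
  set e := (ν.prod ν) (Exc s κ) with he
  have hefin : e ≠ ∞ := measure_ne_top _ _
  have hqfin : ν W ≠ ∞ := measure_ne_top _ _
  set q := (ν W).toReal with hq
  have hq1 : q ≤ 1 := by
    rw [hq]
    exact ENNReal.toReal_le_of_le_ofReal (by norm_num) (by rw [ENNReal.ofReal_one]; exact prob_le_one)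
  have hq0 : 0 ≤ q := ENNReal.toReal_nonneg
  have e0 : 0 ≤ e.toReal := ENNReal.toReal_nonneg
  have h2 : q * q ≤ q * (1 - p) + e.toReal := by
    have h3 := (ENNReal.toReal_le_toReal (by exact ENNReal.mul_ne_top hqfin hqfin)
      (by exact ENNReal.add_ne_top.2 ⟨ENNReal.mul_ne_top hqfin ENNReal.ofReal_ne_top, hefin⟩)).2 h1
    rw [ENNReal.toReal_mul, ENNReal.toReal_add (ENNReal.mul_ne_top hqfin ENNReal.ofReal_ne_top) hefin,
      ENNReal.toReal_mul, ENNReal.toReal_ofReal (by linarith)] at h3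
    exact h3
  have h3 : q ≤ (1 - p / 2) + 4 / p * e.toReal := by
    rcases le_or_gt q (1 - p / 2) with h4 | h4
    · have : 0 ≤ 4 / p * e.toReal := by positivity
      linarith
    · have h5 : p / 4 ≤ e.toReal := by nlinarith
      have h6 : 1 ≤ 4 / p * e.toReal := by
        calc (1:ℝ) = 4 / p * (p / 4) := by field_simp
          _ ≤ _ := by gcongr
      linarith
  calc ν W = ENNReal.ofReal q := (ENNReal.ofReal_toReal hqfin).symm
    _ ≤ ENNReal.ofReal ((1 - p / 2) + 4 / p * e.toReal) := ENNReal.ofReal_le_ofReal h3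
    _ = _ := by
      rw [ENNReal.ofReal_add (by linarith) (by positivity), ENNReal.ofReal_mul (by positivity),
        ENNReal.ofReal_toReal hefin]

/-- resampling one coordinate -/
lemma resample {n : ℕ} (ν : Fin n → Measure ℝ) [∀ i, IsProbabilityMeasure (ν i)] (j : Fin n)
    {f : (Fin n → ℝ) → ℝ≥0∞} (hf : Measurable f) :
    ∫⁻ ω, f ω ∂(Measure.pi ν) = ∫⁻ ω, ∫⁻ t, f (Function.update ω j t) ∂(ν j) ∂(Measure.pi ν) := by
  set g : (Fin n → ℝ) → ℝ≥0∞ := fun ω => ∫⁻ t, f (Function.update ω j t) ∂(ν j) with hg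
  have e1 : (lmarginal ν {j} f) = g := by
    rw [lmarginal_singleton]
  have hgm : Measurable g := by rw [← e1]; exact hf.lmarginal ν
  have e2 : (lmarginal ν {j} g) = g := by
    rw [lmarginal_singleton, hg]
    funext ω
    simp
  have e3 : (lmarginal ν Finset.univ f) = lmarginal ν (Finset.univ.erase j) g := by
    have h := lmarginal_erase' (μ := ν) f hf (Finset.mem_univ j)
    rw [h]
  have e4 : (lmarginal ν Finset.univ g) = lmarginal ν (Finset.univ.erase j) g := by
    have h := lmarginal_erase' (μ := ν) g hgm (Finset.mem_univ j)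
    rw [h]
    congr 1
    funext ω
    simp [hg]
  have e5 : (lmarginal ν Finset.univ f) = lmarginal ν Finset.univ g := e3.trans e4.symm
  rw [lmarginal_univ, lmarginal_univ] at e5
  have := congrFun e5 (fun _ => 0)
  exact this

end Pool.Agent.Helper78.SN
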