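import Mathlib
import Pool.Agent.Helper78.SN.Pair

/-! Probability of bad events for arbitrary independent kicks. -/

set_option autoImplicit false
open Real MeasureTheory Set
open scoped ENNReal

namespace Pool.Agent.Helper78.SN

open Pool.Agent.Helper78.SM
open Pool.Agent.Helper53.SM (T2)

attribute [local instance] Pool.Agent.Helper53.SM.instProbU Pool.Agent.Helper53.SM.instProbT2

/-- the product law -/
noncomputable def muN {n : ℕ} (ν : Fin n → Measure ℝ) : Measure ((Fin n → ℝ) × (ℝ × ℝ)) :=
  (Measure.pi ν).prod ((volume : Measure (ℝ × ℝ)).restrict sq)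

lemma prob_muN {n : ℕ} (ν : Fin n → Measure ℝ) [∀ i, IsProbabilityMeasure (ν i)] :
    IsProbabilityMeasure (muN ν) := by
  have := prob_sq
  unfold muN
  infer_instance

lemma ext_update {n : ℕ} (ω : Fin n → ℝ) (j : Fin n) (t : ℝ) :
    ext (Function.update ω j t) = Function.update (ext ω) (j : ℕ) t := by
  funext k
  by_cases hj : k = j
  · subst hj
    rw [Function.update_self]
    unfold SM.ext
    rw [dif_pos j.2]
    simp
  · rw [Function.update_of_ne hj]
    unfold SM.ext
    by_cases hk : k < n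
    · rw [dif_pos hk, dif_pos hk, Function.update_of_ne]
      intro h
      apply hj
      rw [← h]
    · rw [dif_neg hk, dif_neg hk]

lemma cont_base (a : ℝ) (ω : ℕ → ℝ) (j : ℕ) : Continuous (base a ω j) := by
  have h1 : Continuous (fun p : ℝ × ℝ => (ω, p)) := continuous_const.prodMk continuous_id
  exact continuous_fst.comp ((cont_X a j).comp h1)

lemma mp2 (c : UnitAddCircle) :
    MeasurePreserving (fun y : UnitAddCircle => (2:ℕ) • y + c) volume volume :=
  (AddCircle.ergodic_nsmul_add c (n := 2) (by norm_num)).toMeasurePreserving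

lemma vol2 (c : UnitAddCircle) (κ : ℝ) : volume ((fun y : UnitAddCircle => (2:ℕ) • y + c) ⁻¹'
    Metric.closedBall 0 (κ / 2)) ≤ ENNReal.ofReal κ := by
  rw [(mp2 c).measure_preimage Metric.isClosed_closedBall.measurableSet.nullMeasurableSet,
    AddCircle.volume_closedBall]
  apply ENNReal.ofReal_le_ofReal
  refine (min_le_right _ _).trans ?_
  linarith

lemma two_smul_coe (z w x s : ℝ) (hz : z = x + w) :
    (2:ℕ) • ((z : ℝ) : UnitAddCircle) + ((s - 2 * w : ℝ) : UnitAddCircle) =
      ((2 * x + s : ℝ) : UnitAddCircle) := by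
  rw [← AddCircle.coe_nsmul, ← AddCircle.coe_add]
  congr 1
  rw [hz]
  simp only [nsmul_eq_mul]
  push_cast
  ring

lemma vol_exc (a : ℝ) (ω : ℕ → ℝ) (j : ℕ) (s : ℝ) {κ : ℝ} :
    volume {p : ℝ × ℝ | p ∈ sq ∧ |Real.sin (π * (2 * base a ω j p + s))| ≤ κ} ≤
      ENNReal.ofReal κ := by
  obtain ⟨D, hD⟩ : ∃ D : Set UnitAddCircle, D = (fun y : UnitAddCircle => (2:ℕ) • y +
    ((s - 2 * ω j : ℝ) : UnitAddCircle)) ⁻¹' Metric.closedBall 0 (κ / 2) := ⟨_, rfl⟩
  have hDm : MeasurableSet D := by
    rw [hD]; exact (mp2 _).measurable Metric.isClosed_closedBall.measurableSet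
  have hDv : volume D ≤ ENNReal.ofReal κ := by rw [hD]; exact vol2 _ κ
  have hm : MeasurableSet (D ×ˢ (univ : Set UnitAddCircle)) := hDm.prod MeasurableSet.univ
  have hin : ∀ p : ℝ × ℝ, |Real.sin (π * (2 * base a ω j p + s))| ≤ κ →
      ((zc a ω j p : ℝ) : UnitAddCircle) ∈ D := by
    intro p hp
    rw [hD, mem_preimage, two_smul_coe (zc a ω j p) (ω j) (base a ω j p) s rfl, mem_closedBall_zero_iff]
    have h2 := norm_le_sin (2 * base a ω j p + s)
    linarith
  have h1 := vol_tau (a := a) ω j hm
    (s := {p : ℝ × ℝ | p ∈ sq ∧ |Real.sin (π * (2 * base a ω j p + s))| ≤ κ})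
    (fun p hp => hp.1) (fun p hp => ⟨hin p hp.2, mem_univ _⟩)
  refine h1.trans ?_
  rw [Measure.volume_eq_prod, Measure.prod_prod, UnitAddCircle.measure_univ, mul_one]
  exact hDv

lemma int_exc (a : ℝ) (ω : ℕ → ℝ) (j : ℕ) (ν : Measure ℝ) [IsProbabilityMeasure ν] {κ : ℝ} :
    ∫⁻ p in sq, (ν.prod ν) (Exc (2 * base a ω j p) κ) ≤ ENNReal.ofReal κ := by
  have := prob_sq
  set E : Set ((ℝ × ℝ) × (ℝ × ℝ)) :=
    {y | |Real.sin (π * (2 * base a ω j y.1 + y.2.1 + y.2.2))| ≤ κ} with hE
  have hEm : MeasurableSet E := by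
    apply measurableSet_le _ measurable_const
    apply Continuous.measurable
    have := (cont_base a ω j).comp (continuous_fst (X := ℝ × ℝ) (Y := ℝ × ℝ))
    have h2 : Continuous (fun y : (ℝ × ℝ) × (ℝ × ℝ) => base a ω j y.1) := this
    fun_prop
  have e1 := Measure.prod_apply (μ := (volume : Measure (ℝ × ℝ)).restrict sq) (ν := ν.prod ν) hEm
  have e2 := Measure.prod_apply_symm (μ := (volume : Measure (ℝ × ℝ)).restrict sq)
    (ν := ν.prod ν) hEm
  rw [e1] at e2
  have e3 : ∀ p, (Prod.mk p ⁻¹' E) = Exc (2 * base a ω j p) κ := fun p => rfl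
  simp only [e3] at e2
  rw [e2]
  calc _ ≤ ∫⁻ _x, ENNReal.ofReal κ ∂(ν.prod ν) := by
        apply lintegral_mono
        intro x
        show ((volume : Measure (ℝ × ℝ)).restrict sq) ((fun p => (p, x)) ⁻¹' E) ≤ ENNReal.ofReal κ
        rw [Measure.restrict_apply' measurableSet_sq]
        refine le_trans (measure_mono ?_) (vol_exc a ω j (x.1 + x.2))
        rintro p ⟨h1, h2⟩
        refine ⟨h2, ?_⟩
        have h3 : |Real.sin (π * (2 * base a ω j p + x.1 + x.2))| ≤ κ := h1
        rw [add_assoc] at h3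
        exact h3
    _ = _ := by simp

lemma measurable_exc {n : ℕ} (a : ℝ) (j : ℕ) (ν : Measure ℝ) [IsProbabilityMeasure ν] (κ : ℝ) :
    Measurable (fun y : (Fin n → ℝ) × (ℝ × ℝ) =>
      (ν.prod ν) (Exc (2 * base a (ext y.1) j y.2) κ)) := by
  have hb : Continuous (fun y : (Fin n → ℝ) × (ℝ × ℝ) => base a (ext y.1) j y.2) :=
    continuous_fst.comp ((cont_X a j).comp
      ((continuous_ext.comp continuous_fst).prodMk continuous_snd))
  set E : Set (((Fin n → ℝ) × (ℝ × ℝ)) × (ℝ × ℝ)) :=
    {y | |Real.sin (π * (2 * base a (ext y.1.1) j y.1.2 + y.2.1 + y.2.2))| ≤ κ} with hE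
  have hEm : MeasurableSet E := by
    apply measurableSet_le _ measurable_const
    apply Continuous.measurable
    have h2 : Continuous (fun y : ((Fin n → ℝ) × (ℝ × ℝ)) × (ℝ × ℝ) =>
      base a (ext y.1.1) j y.1.2) := hb.comp continuous_fst
    fun_prop
  exact measurable_measure_prodMk_left hEm

/-- one step of the renewal argument -/
lemma prob_step {a b : ℝ} (hb : 1000 ≤ b) (hab : |a| = b ^ 10) {n : ℕ} (ν : Fin n → Measure ℝ)
    [∀ i, IsProbabilityMeasure (ν i)] {N j : ℕ} (hN : 12 ≤ N) (hj : j < n) {p r : ℝ}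
    (hp0 : 0 < p) (hp1 : p ≤ 1) (hr : 4 * (b ^ 42 / b ^ (6 * N)) ≤ r)
    (hν : ∀ x, ν ⟨j, hj⟩ {t | |Real.sin (π * (t - x))| ≤ r} ≤ ENNReal.ofReal (1 - p)) :
    muN ν (BadK a n (j+N)) ≤
      ENNReal.ofReal (N * (4 * 4096 * Real.log |a| / |a| ^ 2) + 7 / b) +
        (ENNReal.ofReal (1 - p / 2) * muN ν (BadK a n j) +
          ENNReal.ofReal (4 / p) * ENNReal.ofReal (1 / b ^ 17)) := by
  have hb0 : 0 < b := by linarith
  have ha1 : 1 ≤ |a| := by rw [hab]; exact one_le_pow₀ (by linarith)
  have hlog : 0 ≤ Real.log |a| := Real.log_nonneg ha1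
  have := prob_sq
  have := prob_muN ν
  have hBm := measurableSet_BadK a n (j+N)
  have hBj := measurableSet_BadK a n j
  have hTm := measurableSet_TypSet a b n N j
  have h1 : muN ν (TypSet a b n N j)ᶜ ≤
      ENNReal.ofReal (N * (4 * 4096 * Real.log |a| / |a| ^ 2) + 7 / b) := by
    unfold muN
    rw [Measure.prod_apply hTm.compl]
    calc _ ≤ ∫⁻ _ω, ENNReal.ofReal (N * (4 * 4096 * Real.log |a| / |a| ^ 2) + 7 / b)
          ∂(Measure.pi ν) := by
          apply lintegral_mono
          intro ω
          simp only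
          rw [Measure.restrict_apply' measurableSet_sq]
          have h1 := vol_At (by linarith) hab (by omega : 1 ≤ N) (ext ω) j
          have e : Prod.mk ω ⁻¹' (TypSet a b n N j)ᶜ ∩ sq = At a b N (ext ω) j := by
            ext p; rw [mem_inter_iff, and_comm]; rfl
          rw [e]
          exact h1
      _ = _ := by simp
  have h2 : muN ν (TypSet a b n N j ∩ BadK a n (j+N)) ≤
      ENNReal.ofReal (1 - p / 2) * muN ν (BadK a n j) +
        ENNReal.ofReal (4 / p) * ENNReal.ofReal (1 / b ^ 17) := by
    set J : Fin n := ⟨j, hj⟩ with hJ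
    set S := TypSet a b n N j ∩ BadK a n (j+N) with hS
    have hSm : MeasurableSet S := hTm.inter hBm
    -- the inner bound
    have key : ∀ (ω : Fin n → ℝ) (q : ℝ × ℝ),
        ∫⁻ t, S.indicator 1 (Function.update ω J t, q) ∂(ν J) ≤
          ENNReal.ofReal (1 - p / 2) * (BadK a n j).indicator 1 (ω, q) +
          ENNReal.ofReal (4 / p) * ((ν J).prod (ν J)) (Exc (2 * base a (ext ω) j q) (1 / b ^ 17)) := by
      intro ω q
      set W : Set ℝ := {t | (Function.update ω J t, q) ∈ S} with hW
      have hWm : MeasurableSet W := by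
        apply hSm.preimage
        exact (measurable_update ω).prodMk measurable_const
      have e1 : ∫⁻ t, S.indicator 1 (Function.update ω J t, q) ∂(ν J) = ν J W := by
        rw [← lintegral_indicator_one hWm]
        apply lintegral_congr
        intro t
        rfl
      rw [e1]
      have hWd : ∀ t ∈ W, Typ b N
          (fun i => phi a (zc a (Function.update (ext ω) j t) (j+i) q))
          (dphi a (zc a (Function.update (ext ω) j t) j q)) ∧
          |vv a (Function.update (ext ω) j t) q (j+N+1)| <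
            |vv a (Function.update (ext ω) j t) q (j+N)| := by
        rintro t ⟨ht1, ht2⟩
        have h5 : Typ b N (fun i => phi a (zc a (ext (Function.update ω J t)) (j+i) q))
          (dphi a (zc a (ext (Function.update ω J t)) j q)) := ht1
        have h6 : |vv a (ext (Function.update ω J t)) q (j+N+1)| <
            |vv a (ext (Function.update ω J t)) q (j+N)| := ht2
        rw [ext_update] at h5 h6
        exact ⟨h5, h6⟩
      by_cases hbad : (ω, q) ∈ BadK a n j
      · rw [indicator_of_mem hbad, Pi.one_apply, mul_one]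
        apply pair_bound (ν J) hp0 hp1 hν hWm
        intro t ht t' ht'
        obtain ⟨a1, a2⟩ := hWd t ht
        obtain ⟨b1, b2⟩ := hWd t' ht'
        rcases two_kicks (ext ω) j q hb hab hN a1 b1 a2 b2 with h | h
        · left; exact h.trans hr
        · right; exact h
      · have hWe : W = ∅ := by
          apply eq_empty_of_forall_notMem
          intro t ht
          apply hbad
          obtain ⟨a1, a2⟩ := hWd t ht
          exact kick_bad_start (ext ω) j q hb hab hN a1 a2
        rw [hWe, measure_empty]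
        exact zero_le
    have hind : Measurable (fun y : (Fin n → ℝ) × (ℝ × ℝ) => S.indicator (1 : (Fin n → ℝ) × (ℝ × ℝ) → ℝ≥0∞) y) :=
      measurable_one.indicator hSm
    calc muN ν S = ∫⁻ y, S.indicator 1 y ∂(muN ν) := (lintegral_indicator_one hSm).symm
      _ = ∫⁻ q in sq, ∫⁻ ω, S.indicator 1 (ω, q) ∂(Measure.pi ν) := by
          unfold muN
          rw [lintegral_prod_symm _ hind.aemeasurable]
      _ = ∫⁻ q in sq, ∫⁻ ω, ∫⁻ t, S.indicator 1 (Function.update ω J t, q) ∂(ν J)
            ∂(Measure.pi ν) := by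
          apply lintegral_congr
          intro q
          exact resample ν J (f := fun ω => S.indicator 1 (ω, q))
            (hind.comp (measurable_id.prodMk measurable_const))
      _ ≤ ∫⁻ q in sq, ∫⁻ ω, (ENNReal.ofReal (1 - p / 2) * (BadK a n j).indicator 1 (ω, q) +
          ENNReal.ofReal (4 / p) * ((ν J).prod (ν J)) (Exc (2 * base a (ext ω) j q) (1 / b ^ 17)))
            ∂(Measure.pi ν) := by
          apply lintegral_mono
          intro q
          apply lintegral_mono
          intro ω
          exact key ω q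
      _ = ENNReal.ofReal (1 - p / 2) * muN ν (BadK a n j) + ENNReal.ofReal (4 / p) *
          ∫⁻ ω, (∫⁻ q in sq, ((ν J).prod (ν J)) (Exc (2 * base a (ext ω) j q) (1 / b ^ 17)))
            ∂(Measure.pi ν) := by
          have hg := measurable_exc (n := n) a j (ν J) (1 / b ^ 17)
          have hi : Measurable (fun y : (Fin n → ℝ) × (ℝ × ℝ) =>
              (BadK a n j).indicator (1 : (Fin n → ℝ) × (ℝ × ℝ) → ℝ≥0∞) y) :=
            measurable_one.indicator hBj
          have hh : Measurable (fun y : (Fin n → ℝ) × (ℝ × ℝ) =>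
              ENNReal.ofReal (1 - p / 2) * (BadK a n j).indicator 1 y +
              ENNReal.ofReal (4 / p) * ((ν J).prod (ν J))
                (Exc (2 * base a (ext y.1) j y.2) (1 / b ^ 17))) :=
            (hi.const_mul _).add (hg.const_mul _)
          have e1 := lintegral_prod_symm (μ := Measure.pi ν)
            (ν := (volume : Measure (ℝ × ℝ)).restrict sq) _ hh.aemeasurable
          rw [← e1, lintegral_add_left (hi.const_mul _), lintegral_const_mul _ hi,
            lintegral_const_mul _ hg, lintegral_indicator_one hBj,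
            lintegral_prod _ hg.aemeasurable]
          rfl
      _ ≤ _ := by
          gcongr
          calc _ ≤ ∫⁻ _ω, ENNReal.ofReal (1 / b ^ 17) ∂(Measure.pi ν) := by
                apply lintegral_mono
                intro ω
                exact int_exc a (ext ω) j (ν J)
            _ = _ := by simp
  have hsub : BadK a n (j+N) ⊆ (TypSet a b n N j)ᶜ ∪ (TypSet a b n N j ∩ BadK a n (j+N)) := by
    intro q hq
    by_cases h : q ∈ TypSet a b n N j
    · right; exact ⟨h, hq⟩
    · left; exact h
  calc muN ν (BadK a n (j+N)) ≤ _ := measure_mono hsub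
    _ ≤ _ := measure_union_le _ _
    _ ≤ _ := add_le_add h1 h2

end Pool.Agent.Helper78.SN
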