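import Mathlib
import Pool.Agent.Helper78.SN.Prob

/-! Expected growth of the derivative for arbitrary independent kicks. -/

set_option autoImplicit false
open Real MeasureTheory Set
open scoped ENNReal

namespace Pool.Agent.Helper78.SN

open Pool.Agent.Helper78.SM

attribute [local instance] Pool.Agent.Helper53.SM.instProbU Pool.Agent.Helper53.SM.instProbT2

/-- strong induction -/
lemma prob_all {a b : ℝ} (hb : 1000 ≤ b) (hab : |a| = b ^ 10) {n : ℕ} (ν : ℕ → Measure ℝ)
    [∀ i, IsProbabilityMeasure (ν i)] {N0 M : ℕ} (hN0 : 12 ≤ N0) {p r : ℝ}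
    (hpb : 1 / b ≤ p) (hp1 : p ≤ 1) (hr : 4 * (b ^ 42 / b ^ (6 * N0)) ≤ r)
    (hν : ∀ k, ∃ j, k ≤ j ∧ j < k + M ∧
      ∀ x, ν j {t | |Real.sin (π * (t - x))| ≤ r} ≤ ENNReal.ofReal (1 - p)) :
    ∀ k, k < n → muN (fun i : Fin n => ν i) (BadK a n k) ≤
      ENNReal.ofReal (2 / p * ((N0 + M) * (4 * 4096 * Real.log |a| / |a| ^ 2) + 8 / b)) := by
  have hb0 : 0 < b := by linarith
  have hb1 : 1 ≤ b := by linarith
  have hp0 : 0 < p := lt_of_lt_of_le (by positivity) hpb
  have ha1 : 1 ≤ |a| := by rw [hab]; exact one_le_pow₀ (by linarith)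
  have hlog : 0 ≤ Real.log |a| := Real.log_nonneg ha1
  have := prob_sq
  set κ₀ := 4 * 4096 * Real.log |a| / |a| ^ 2 with hκ
  have hκ0 : 0 ≤ κ₀ := by rw [hκ]; positivity
  set T := (N0 + M) * κ₀ + 8 / b with hT
  have hT0 : 0 ≤ T := by rw [hT]; positivity
  have h2p : 2 ≤ 2 / p := by
    rw [le_div_iff₀ hp0]; linarith
  intro k
  induction k using Nat.strong_induction_on with
  | _ k ih =>
  intro hk
  rcases Nat.lt_or_ge k (N0 + M) with hkN | hkN
  · -- early times
    have hBm := measurableSet_BadK a n k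
    unfold muN
    rw [Measure.prod_apply hBm]
    calc _ ≤ ∫⁻ _ω, ENNReal.ofReal (2 / p * T) ∂(Measure.pi (fun i : Fin n => ν i)) := by
          apply lintegral_mono
          intro ω
          simp only
          rw [Measure.restrict_apply' measurableSet_sq]
          have h1 := bad_early (by linarith) hab (ext ω) k
          have e : Prod.mk ω ⁻¹' BadK a n k ∩ sq =
              {p : ℝ × ℝ | p ∈ sq ∧ |vv a (ext ω) p (k+1)| < |vv a (ext ω) p k|} := by
            ext p; rw [mem_inter_iff, and_comm]; rfl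
          rw [e]
          refine h1.trans ?_
          apply ENNReal.ofReal_le_ofReal
          have h2 : (k:ℝ) ≤ N0 + M := by exact_mod_cast hkN.le
          have h3 : 1 / b ≤ 8 / b := by gcongr; norm_num
          have h4 : (k:ℝ) * κ₀ ≤ (N0 + M) * κ₀ := by gcongr
          have h5 : (k:ℝ) * κ₀ + 1 / b ≤ T := by rw [hT]; linarith
          nlinarith
      _ = _ := by simp
  · obtain ⟨j, hj1, hj2, hj3⟩ := hν (k + 1 - N0 - M)
    obtain ⟨N, rfl⟩ : ∃ N, k = j + N := ⟨k - j, by omega⟩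
    have hN1 : N0 ≤ N := by omega
    have hN2 : N < N0 + M := by omega
    have hjn : j < n := by omega
    have hr' : 4 * (b ^ 42 / b ^ (6 * N)) ≤ r := by
      refine le_trans ?_ hr
      have : b ^ (6 * N0) ≤ b ^ (6 * N) := pow_le_pow_right₀ hb1 (by omega)
      gcongr
    have h1 := prob_step (n := n) hb hab (fun i : Fin n => ν i) (N := N) (j := j) (by omega) hjn hp0 hp1 hr'
      hj3
    have h2 := ih j (by omega) hjn
    refine h1.trans ?_
    calc _ ≤ ENNReal.ofReal (N * κ₀ + 7 / b) + (ENNReal.ofReal (1 - p / 2) *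
          ENNReal.ofReal (2 / p * T) + ENNReal.ofReal (4 / p) * ENNReal.ofReal (1 / b ^ 17)) := by
          gcongr
      _ = ENNReal.ofReal (N * κ₀ + 7 / b + ((1 - p / 2) * (2 / p * T) + 4 / p * (1 / b ^ 17))) := by
          have h5 : 0 ≤ 1 - p / 2 := by linarith
          rw [← ENNReal.ofReal_mul h5, ← ENNReal.ofReal_mul (by positivity),
            ← ENNReal.ofReal_add (by positivity) (by positivity),
            ← ENNReal.ofReal_add (by positivity) (by positivity)]
      _ ≤ _ := by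
          apply ENNReal.ofReal_le_ofReal
          have e1 : (1 - p / 2) * (2 / p * T) = 2 / p * T - T := by
            field_simp
          have h6 : (N:ℝ) * κ₀ ≤ (N0 + M) * κ₀ := by
            have : (N:ℝ) ≤ N0 + M := by exact_mod_cast hN2.le
            gcongr
          have h7 : 4 / p * (1 / b ^ 17) ≤ 1 / b := by
            have h8 : 4 / p ≤ 4 * b := by
              rw [div_le_iff₀ hp0]
              rw [div_le_iff₀ hb0] at hpb
              nlinarith
            calc 4 / p * (1 / b ^ 17) ≤ 4 * b * (1 / b ^ 17) := by gcongr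
              _ = 4 / b ^ 15 * (1 / b) := by field_simp
              _ ≤ 1 * (1 / b) := by
                have : 4 / b ^ 15 ≤ 1 := by
                  rw [div_le_one (by positivity)]
                  calc (4:ℝ) ≤ b ^ 1 := by rw [pow_one]; linarith
                    _ ≤ b ^ 15 := pow_le_pow_right₀ hb1 (by norm_num)
                gcongr
              _ = 1 / b := one_mul _
          have h9 : 7 / b + 1 / b = 8 / b := by ring
          rw [e1]
          linarith

lemma int_muN {a : ℝ} {n : ℕ} (ν : Fin n → Measure ℝ) [∀ i, IsProbabilityMeasure (ν i)] (k : ℕ)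
    {g : ℝ → ℝ} (hg : Measurable g) {C : ℝ}
    (hC : ∀ q : (Fin n → ℝ) × (ℝ × ℝ), |g (phi a (zc a (ext q.1) k q.2))| ≤ C) :
    Integrable (fun q : (Fin n → ℝ) × (ℝ × ℝ) => g (phi a (zc a (ext q.1) k q.2))) (muN ν) ∧
    ∫ q, g (phi a (zc a (ext q.1) k q.2)) ∂(muN ν) = ∫ θ : UnitAddCircle, g (Phi a θ) := by
  have := prob_sq
  have := prob_muN ν
  have hint : Integrable (fun q : (Fin n → ℝ) × (ℝ × ℝ) => g (phi a (zc a (ext q.1) k q.2)))
      (muN ν) := by
    refine Integrable.of_bound (hg.comp (cont_phize a k).measurable).aestronglyMeasurable C ?_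
    exact Filter.Eventually.of_forall (fun q => by rw [Real.norm_eq_abs]; exact hC q)
  refine ⟨hint, ?_⟩
  unfold muN at hint ⊢
  rw [integral_prod _ hint]
  have h1 : ∀ ω : Fin n → ℝ, ∫ p in sq, g (phi a (zc a (ext ω) k p)) =
      ∫ θ : UnitAddCircle, g (Phi a θ) := fun ω => int_sq (ext ω) k hg
  simp only [h1]
  simp

lemma integrable_GGN {a : ℝ} (ha : 1 ≤ |a|) {n : ℕ} (ν : Fin n → Measure ℝ)
    [∀ i, IsProbabilityMeasure (ν i)] : Integrable (GG a n) (muN ν) := by
  have := prob_muN ν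
  refine Integrable.of_bound (measurable_GG a n).aestronglyMeasurable
    (n * (2 * Real.log (10 * |a|))) ?_
  refine Filter.Eventually.of_forall (fun q => ?_)
  have hl : 0 ≤ Real.log (10 * |a|) := Real.log_nonneg (by linarith)
  rw [Real.norm_eq_abs, abs_le]
  constructor
  · have h1 := GG_ge ha n q
    have h2 : ∑ k ∈ Finset.range n, (-(2 * Real.log (10 * |a|))) ≤
        ∑ k ∈ Finset.range n, (gg (phi a (zc a (ext q.1) k q.2)) -
      (BadK a n k).indicator (fun _ => 2 * Real.log (10 * |a|)) q) := by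
      apply Finset.sum_le_sum
      intro k _
      have h3 := gg_nonneg (phi a (zc a (ext q.1) k q.2))
      have h4 : (BadK a n k).indicator (fun _ => 2 * Real.log (10 * |a|)) q ≤
          2 * Real.log (10 * |a|) := by
        apply Set.indicator_apply_le'
        · intro _; exact le_rfl
        · intro _; positivity
      linarith
    rw [Finset.sum_const, Finset.card_range, nsmul_eq_mul] at h2
    linarith
  · refine (GG_le n q).trans ?_
    have h2 : ∑ k ∈ Finset.range n, Real.log (|phi a (zc a (ext q.1) k q.2)| + 1) ≤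
        ∑ k ∈ Finset.range n, (2 * Real.log (10 * |a|)) := by
      apply Finset.sum_le_sum
      intro k _
      have h3 := (abs_le.1 (phi_log_le ha (zc a (ext q.1) k q.2))).2
      linarith
    rw [Finset.sum_const, Finset.card_range, nsmul_eq_mul] at h2
    exact h2

lemma int_GGN_le {a M : ℝ} (ha : 1 ≤ |a|) (hM : 1 ≤ M) {n : ℕ} (ν : Fin n → Measure ℝ)
    [∀ i, IsProbabilityMeasure (ν i)] :
    ∫ q, GG a n q ∂(muN ν) ≤
      n * (Real.log (π * |a|) + 2 * Real.exp (-M) + Real.exp M / |a|) := by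
  have hm : Measurable (fun t : ℝ => Real.log (|t| + 1)) :=
    Real.measurable_log.comp (continuous_abs.measurable.add_const 1)
  have hk := fun k => int_muN (a := a) ν k hm (C := Real.log (10 * |a|))
    (fun q => phi_log_le ha _)
  have h1 : ∫ q, GG a n q ∂(muN ν) ≤
      ∫ q, ∑ k ∈ Finset.range n, Real.log (|phi a (zc a (ext q.1) k q.2)| + 1) ∂(muN ν) :=
    integral_mono (integrable_GGN ha ν) (integrable_finsetSum _ (fun k _ => (hk k).1))
      (fun q => GG_le n q)
  rw [integral_finsetSum _ (fun k _ => (hk k).1)] at h1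
  refine h1.trans ?_
  calc _ = ∑ k ∈ Finset.range n, ∫ θ : UnitAddCircle, Real.log (|Phi a θ| + 1) :=
        Finset.sum_congr rfl (fun k _ => (hk k).2)
    _ ≤ ∑ k ∈ Finset.range n, (Real.log (π * |a|) + 2 * Real.exp (-M) + Real.exp M / |a|) :=
        Finset.sum_le_sum (fun k _ => mean_log ha hM)
    _ = _ := by rw [Finset.sum_const, Finset.card_range, nsmul_eq_mul]

lemma int_GGN_ge {a M s β : ℝ} (ha : 1 ≤ |a|) (hM : 1 ≤ M) (hs : 2 ≤ s)
    (hβ0 : 0 ≤ β) {n : ℕ} (ν : Fin n → Measure ℝ)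
    [∀ i, IsProbabilityMeasure (ν i)] (hβ : ∀ k, k < n → (muN ν) (BadK a n k) ≤ ENNReal.ofReal β) :
    n * (Real.log (π * |a|) - 4 * Real.exp (-M) - Real.exp M / |a| - s / (2 * |a|) - 2 / s -
      2 * Real.log (10 * |a|) * β) ≤ ∫ q, GG a n q ∂(muN ν) := by
  have := prob_muN ν
  have hl : 0 ≤ Real.log (10 * |a|) := Real.log_nonneg (by linarith)
  have hk := fun k => int_muN (a := a) ν k measurable_gg (C := Real.log (10 * |a|))
    (fun q => phi_gg_le ha _)
  have hi : ∀ k, Integrable ((BadK a n k).indicator (fun _ => 2 * Real.log (10 * |a|)))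
      (muN ν) := fun k => (integrable_const _).indicator (measurableSet_BadK a n k)
  have hd : ∀ k, Integrable (fun q : (Fin n → ℝ) × (ℝ × ℝ) =>
      gg (phi a (zc a (ext q.1) k q.2)) -
      (BadK a n k).indicator (fun _ => 2 * Real.log (10 * |a|)) q) (muN ν) :=
    fun k => (hk k).1.sub (hi k)
  have h1 : ∫ q, ∑ k ∈ Finset.range n, (gg (phi a (zc a (ext q.1) k q.2)) -
      (BadK a n k).indicator (fun _ => 2 * Real.log (10 * |a|)) q) ∂(muN ν) ≤
      ∫ q, GG a n q ∂(muN ν) :=
    integral_mono (integrable_finsetSum _ (fun k _ => hd k))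
      (integrable_GGN ha ν) (fun q => GG_ge ha n q)
  rw [integral_finsetSum _ (fun k _ => hd k)] at h1
  refine le_trans ?_ h1
  calc _ = ∑ k ∈ Finset.range n, (Real.log (π * |a|) - 4 * Real.exp (-M) - Real.exp M / |a| -
        s / (2 * |a|) - 2 / s - 2 * Real.log (10 * |a|) * β) := by
        rw [Finset.sum_const, Finset.card_range, nsmul_eq_mul]
    _ ≤ _ := by
        apply Finset.sum_le_sum
        intro k hkn
        rw [integral_sub (hk k).1 (hi k), (hk k).2,
          integral_indicator_const _ (measurableSet_BadK a n k), smul_eq_mul]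
        have h2 := mean_gg ha hM hs
        have h3 : (muN ν).real (BadK a n k) ≤ β :=
          ENNReal.toReal_le_of_le_ofReal hβ0 (hβ k (Finset.mem_range.1 hkn))
        have h4 : (muN ν).real (BadK a n k) * (2 * Real.log (10 * |a|)) ≤
            β * (2 * Real.log (10 * |a|)) := by gcongr
        linarith

lemma choose_N0 {b r : ℝ} (hb : 1000 ≤ b) (hr : 0 < r) (hr2 : r ≤ 1 / 2) :
    ∃ N : ℕ, 12 ≤ N ∧ 4 * (b ^ 42 / b ^ (6 * N)) ≤ 2 * r ∧
      (N:ℝ) ≤ Real.log (1 / r) / (6 * Real.log b) + 13 := by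
  have hb0 : 0 < b := by linarith
  have hb1 : 1 ≤ b := by linarith
  have hlb : 0 < Real.log b := Real.log_pos (by linarith)
  have hle : 0 ≤ Real.log (1 / r) := by
    apply Real.log_nonneg
    rw [le_div_iff₀ hr]; linarith
  set x := Real.log (1 / r) / (6 * Real.log b) with hx
  have hx0 : 0 ≤ x := by positivity
  refine ⟨⌈x⌉₊ + 12, by omega, ?_, ?_⟩
  · have h1 : 1 / r ≤ b ^ (6 * ⌈x⌉₊) := by
      rw [← Real.exp_log (show 0 < 1 / r by positivity)]
      rw [← Real.exp_log (show 0 < b ^ (6 * ⌈x⌉₊) by positivity), Real.exp_le_exp, Real.log_pow]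
      have h2 := Nat.le_ceil x
      have h3 : Real.log (1 / r) = x * (6 * Real.log b) := by
        rw [hx]; field_simp
      rw [h3]
      push_cast
      nlinarith
    have e1 : b ^ (6 * (⌈x⌉₊ + 12)) = b ^ (6 * ⌈x⌉₊) * b ^ 72 := by
      rw [← pow_add]; congr 1
    rw [e1]
    have h4 : 1 ≤ b ^ (6 * ⌈x⌉₊) * r := by
      rw [div_le_iff₀ hr] at h1; exact h1
    set P := b ^ (6 * ⌈x⌉₊) with hP
    have hP0 : 0 < P := by positivity
    rw [mul_div_assoc', div_le_iff₀ (by positivity)]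
    calc 4 * b ^ 42 ≤ 2 * b ^ 43 := by
          have : b ^ 43 = b ^ 42 * b := by ring
          have h5 : 0 < b ^ 42 := by positivity
          nlinarith
      _ ≤ 2 * b ^ 72 := by
          have : b ^ 43 ≤ b ^ 72 := pow_le_pow_right₀ hb1 (by norm_num)
          linarith
      _ ≤ 2 * (P * r) * b ^ 72 := by
          have : 0 ≤ b ^ 72 := by positivity
          nlinarith
      _ = 2 * r * (P * b ^ 72) := by ring
  · have h2 := (Nat.ceil_lt_add_one hx0).le
    push_cast
    linarith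

/-- bounds for the integral over the product space -/
lemma GGN_bounds {δ : ℝ} (hδ : 0 < δ) : ∃ a₀ : ℝ, ∀ a : ℝ, a₀ ≤ |a| → ∀ p r : ℝ,
    0 < p → p ≤ 1 → 0 < r → r ≤ 1 / 2 → ∀ M : ℕ, 1 ≤ M → ∀ ν : ℕ → Measure ℝ,
    (∀ i, IsProbabilityMeasure (ν i)) →
    (∀ k, ∃ j, k ≤ j ∧ j < k + M ∧
      ∀ x, ν j {t | |Real.sin (π * (t - x))| ≤ 2 * r} ≤ ENNReal.ofReal (1 - p)) →
    ∀ n : ℕ, n * (Real.log (π * |a|) - δ - 2000000 * Real.log |a| / p *
        ((Real.log (1 / r) + M * Real.log |a|) / |a| ^ 2 + 1 / |a| ^ ((1:ℝ) / 10))) ≤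
      ∫ q, GG a n q ∂(muN (fun i : Fin n => ν i)) ∧
    ∫ q, GG a n q ∂(muN (fun i : Fin n => ν i)) ≤ n * (Real.log (π * |a|) + δ) := by
  obtain ⟨M0, hM0, b₀, hb₀, hsm⟩ := small_terms hδ
  refine ⟨(max b₀ 1000) ^ 10, ?_⟩
  intro a ha p r hp hp1 hr hr2 M hM ν hprob hν n
  have hA0 : 0 ≤ |a| := abs_nonneg a
  set b := |a| ^ ((1:ℝ) / 10) with hbdef
  have hab : |a| = b ^ 10 := by
    rw [hbdef, ← Real.rpow_natCast, ← Real.rpow_mul hA0]
    norm_num
  have hbnn : 0 ≤ b := Real.rpow_nonneg hA0 _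
  have hbb : max b₀ 1000 ≤ b := by
    rw [hab] at ha
    exact (pow_le_pow_iff_left₀ (le_trans (by norm_num) (le_max_right b₀ 1000)) hbnn
      (by norm_num)).1 ha
  have hbb₀ : b₀ ≤ b := (le_max_left _ _).trans hbb
  have hb : 1000 ≤ b := (le_max_right _ _).trans hbb
  have hb0 : 0 < b := by linarith
  have hb1 : 1 ≤ b := by linarith
  have ha1 : 1 ≤ |a| := by rw [hab]; exact one_le_pow₀ hb1
  have ha10 : 10 ≤ |a| := by
    rw [hab]
    calc (10:ℝ) ≤ b ^ 1 := by rw [pow_one]; linarith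
      _ ≤ b ^ 10 := pow_le_pow_right₀ hb1 (by norm_num)
  have hlb : 0 < Real.log b := Real.log_pos (by linarith)
  have hL : Real.log |a| = 10 * Real.log b := by rw [hab, Real.log_pow]; norm_num
  have hs := hsm b hbb₀
  have hle : 0 ≤ Real.log (1 / r) := by
    apply Real.log_nonneg
    rw [le_div_iff₀ hr]; linarith
  have hexp1 := Real.exp_pos (-M0)
  have hexp2 := Real.exp_pos M0
  have hl0 : 0 < Real.log |a| := by rw [hL]; linarith
  have hs2 : 2 ≤ b ^ 5 := by
    calc (2:ℝ) ≤ b ^ 1 := by rw [pow_one]; linarith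
      _ ≤ b ^ 5 := pow_le_pow_right₀ hb1 (by norm_num)
  have h2 : Real.log (10 * |a|) ≤ 2 * Real.log |a| := by
    rw [Real.log_mul (by norm_num) (by linarith)]
    have := Real.log_le_log (by norm_num) ha10
    linarith
  have e1 : b ^ 5 / (2 * |a|) = b ^ 5 / (2 * b ^ 10) := by rw [hab]
  have e2 : Real.exp M0 / |a| = Real.exp M0 / b ^ 10 := by rw [hab]
  have hM1 : (1:ℝ) ≤ M := by exact_mod_cast hM
  have hpos1 : 0 ≤ b ^ 5 / (2 * b ^ 10) := by positivity
  have hpos2 : 0 ≤ 2 / b ^ 5 := by positivity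
  have hpos3 : 0 ≤ Real.log b / b := by positivity
  constructor
  · rcases lt_or_ge p (1 / b) with hpb | hpb
    · -- trivial bound
      have h1 := int_GGN_ge (a := a) (β := 1) ha1 hM0 hs2 zero_le_one (fun i : Fin n => ν i)
        (fun k _ => by
          have := prob_muN (fun i : Fin n => ν i)
          rw [ENNReal.ofReal_one]
          exact prob_le_one)
      refine le_trans ?_ h1
      apply mul_le_mul_of_nonneg_left _ (Nat.cast_nonneg n)
      have h3 : 4 * Real.log |a| ≤ 2000000 * Real.log |a| / p *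
          ((Real.log (1 / r) + M * Real.log |a|) / |a| ^ 2 + 1 / b) := by
        have h4 : 1 ≤ 1 / p * (1 / b) := by
          rw [div_mul_div_comm, one_mul, le_div_iff₀ (by positivity), one_mul]
          rw [lt_div_iff₀ hb0] at hpb
          exact hpb.le
        calc 4 * Real.log |a| ≤ 2000000 * Real.log |a| * 1 := by linarith
          _ ≤ 2000000 * Real.log |a| * (1 / p * (1 / b)) := by gcongr
          _ = 2000000 * Real.log |a| / p * (0 + 1 / b) := by ring
          _ ≤ _ := by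
              gcongr
              positivity
      rw [e1, e2]
      linarith [sq_nonneg (Real.log b / b)]
    · obtain ⟨N0, hN12, hβ, hN⟩ := choose_N0 hb hr hr2
      have hnn : 0 ≤ 2 / p * (((N0:ℝ) + M) * (4 * 4096 * Real.log |a| / |a| ^ 2) + 8 / b) := by
        positivity
      have h1 := int_GGN_ge (a := a) ha1 hM0 hs2 hnn (fun i : Fin n => ν i)
        (prob_all (n := n) hb hab ν hN12 hpb hp1 hβ hν)
      refine le_trans ?_ h1
      apply mul_le_mul_of_nonneg_left _ (Nat.cast_nonneg n)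
      have h3 : 2 * Real.log (10 * |a|) *
          (2 / p * ((N0 + M) * (4 * 4096 * Real.log |a| / |a| ^ 2) + 8 / b)) ≤
          2000000 * Real.log |a| / p *
          ((Real.log (1 / r) + M * Real.log |a|) / |a| ^ 2 + 1 / b) := by
        have h5 : (N0:ℝ) + M ≤ 14 * ((Real.log (1 / r) + M * Real.log |a|) / Real.log |a|) := by
          have h6 : Real.log (1 / r) / (6 * Real.log b) =
              10 / 6 * (Real.log (1 / r) / Real.log |a|) := by
            rw [hL]; field_simp
          have h7 : (Real.log (1 / r) + M * Real.log |a|) / Real.log |a| =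
              Real.log (1 / r) / Real.log |a| + M := by
            field_simp
          rw [h7]
          rw [h6] at hN
          have h8 : 0 ≤ Real.log (1 / r) / Real.log |a| := by positivity
          linarith
        calc _ ≤ 2 * (2 * Real.log |a|) *
            (2 / p * ((14 * ((Real.log (1 / r) + M * Real.log |a|) / Real.log |a|)) *
              (4 * 4096 * Real.log |a| / |a| ^ 2) + 8 / b)) := by gcongr
          _ = Real.log |a| / p * (1835008 * ((Real.log (1 / r) + M * Real.log |a|) / |a| ^ 2) +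
              64 * (1 / b)) := by
              field_simp
              ring
          _ ≤ Real.log |a| / p * (2000000 * ((Real.log (1 / r) + M * Real.log |a|) / |a| ^ 2) +
              2000000 * (1 / b)) := by
              gcongr
              · norm_num
              · norm_num
          _ = _ := by ring
      rw [e1, e2]
      linarith [sq_nonneg (Real.log b / b)]
  · refine (int_GGN_le ha1 hM0 (fun i : Fin n => ν i)).trans ?_
    apply mul_le_mul_of_nonneg_left _ (Nat.cast_nonneg n)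
    rw [e2]
    nlinarith [sq_nonneg (Real.log b / b)]

lemma sin_dist {t x r : ℝ} (h : |Real.sin (π * (t - x))| ≤ 2 * r) :
    ∃ m : ℤ, |t - x - m| ≤ r := by
  refine ⟨round (t - x), ?_⟩
  have h1 := norm_le_sin (t - x)
  rw [UnitAddCircle.norm_eq] at h1
  linarith

theorem main_kicks : ∃ C : ℝ, 0 < C ∧ ∀ δ : ℝ, 0 < δ → ∃ a₀ : ℝ, ∀ a : ℝ, a₀ ≤ |a| →
    ∀ p r : ℝ, 0 < p → p ≤ 1 → 0 < r → r ≤ 1 / 2 → ∀ M : ℕ, 1 ≤ M →
    ∀ ν : ℕ → Measure ℝ, (∀ i, IsProbabilityMeasure (ν i)) →
    (∀ k, ∃ j, k ≤ j ∧ j < k + M ∧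
      ∀ x : ℝ, (ν j).real {t | ∃ m : ℤ, |t - x - m| ≤ r} ≤ 1 - p) → ∀ n : ℕ,
    n * (Real.log (π * |a|) - δ - C * Real.log |a| / p *
        ((Real.log (1 / r) + M * Real.log |a|) / |a| ^ 2 + 1 / |a| ^ ((1:ℝ) / 10))) ≤
      ∫ ω : Fin n → ℝ, (∫ q in Ioc (0:ℝ) 1 ×ˢ Ioc (0:ℝ) 1, Real.log ‖fderiv ℝ (fun q : ℝ × ℝ =>
        Fin.foldl n (fun (z : ℝ × ℝ) i =>
          (2 * (z.1 + ω i) - z.2 + a * Real.sin (2 * π * (z.1 + ω i)), z.1 + ω i)) q) q‖)
        ∂(Measure.pi (fun i : Fin n => ν i)) ∧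
    ∫ ω : Fin n → ℝ, (∫ q in Ioc (0:ℝ) 1 ×ˢ Ioc (0:ℝ) 1, Real.log ‖fderiv ℝ (fun q : ℝ × ℝ =>
        Fin.foldl n (fun (z : ℝ × ℝ) i =>
          (2 * (z.1 + ω i) - z.2 + a * Real.sin (2 * π * (z.1 + ω i)), z.1 + ω i)) q) q‖)
        ∂(Measure.pi (fun i : Fin n => ν i)) ≤
      n * (Real.log (π * |a|) + δ) := by
  refine ⟨2000000, by norm_num, fun δ hδ => ?_⟩
  obtain ⟨a₀, h⟩ := GGN_bounds hδ
  refine ⟨max a₀ 1, fun a ha p r hp hp1 hr hr2 M hM ν hprob hν n => ?_⟩
  have ha1 : 1 ≤ |a| := (le_max_right _ _).trans ha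
  have hb := h a ((le_max_left _ _).trans ha) p r hp hp1 hr hr2 M hM ν hprob (by
    intro k
    obtain ⟨j, h1, h2, h3⟩ := hν k
    refine ⟨j, h1, h2, fun x => ?_⟩
    have h4 : ν j {t | |Real.sin (π * (t - x))| ≤ 2 * r} ≤
        ν j {t | ∃ m : ℤ, |t - x - m| ≤ r} := measure_mono (fun t ht => sin_dist ht)
    refine h4.trans ?_
    rw [← ENNReal.ofReal_toReal (measure_ne_top (ν j) {t | ∃ m : ℤ, |t - x - m| ≤ r})]
    exact ENNReal.ofReal_le_ofReal (h3 x)) n
  have := prob_sq
  have hint := integrable_GGN ha1 (fun i : Fin n => ν i)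
  have e : ∫ q, GG a n q ∂(muN (fun i : Fin n => ν i)) =
      ∫ ω : Fin n → ℝ, (∫ q in Ioc (0:ℝ) 1 ×ˢ Ioc (0:ℝ) 1, Real.log ‖fderiv ℝ (fun q : ℝ × ℝ =>
        Fin.foldl n (fun (z : ℝ × ℝ) i =>
          (2 * (z.1 + ω i) - z.2 + a * Real.sin (2 * π * (z.1 + ω i)), z.1 + ω i)) q) q‖)
        ∂(Measure.pi (fun i : Fin n => ν i)) := by
    unfold muN at hint ⊢
    rw [integral_prod _ hint]
    unfold SM.sq GG
    simp only [foldl_eq_X]
    simp only [fun (ω : Fin n → ℝ) (p : ℝ × ℝ) => (hasFDerivAt_X a (ext ω) n p).fderiv]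
  rw [e] at hb
  exact hb

end Pool.Agent.Helper78.SN
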